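import Pool.Agent.Results.MP_45cb44_an.SeminormalPlusTraceClass

/-! The hand-in `SeminormalPlusTraceClass` contains the statement of `Seminormal` and the invariant
form of `NormalPlusTraceClass`. -/

namespace Pool.Agent.Lib.MP_45cb44_an.SP

open Pool.Agent.Results.MP_45cb44_an

theorem seminormal {H : Type*} [NormedAddCommGroup H] [InnerProductSpace ℂ H] [CompleteSpace H]
    (hH : ¬FiniteDimensional ℂ H) (T : H →L[ℂ] H)
    (hT : (∀ x, ‖ContinuousLinearMap.adjoint T x‖ ≤ ‖T x‖) ∨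
      ∀ x, ‖T x‖ ≤ ‖ContinuousLinearMap.adjoint T x‖) :
    ∃ M : Submodule ℂ H, IsClosed (M : Set H) ∧ (∀ x ∈ M, T x ∈ M) ∧ M ≠ ⊥ ∧ M ≠ ⊤ := by
  simpa only [add_zero] using SeminormalPlusTraceClass.result hH T 0 hT (fun _ => 0) (fun _ => 0)
    (by simpa using summable_zero) (fun x => by simpa using hasSum_zero)

theorem normal_plus {H : Type*} [NormedAddCommGroup H] [InnerProductSpace ℂ H] [CompleteSpace H]
    (hH : ¬FiniteDimensional ℂ H) (N K : H →L[ℂ] H)
    (hN : (ContinuousLinearMap.adjoint N).comp N = N.comp (ContinuousLinearMap.adjoint N))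
    (u v : ℕ → H) (huv : Summable fun n => ‖u n‖ * ‖v n‖)
    (hK : ∀ x, HasSum (fun n => inner ℂ (v n) x • u n) (K x)) :
    ∃ M : Submodule ℂ H, IsClosed (M : Set H) ∧ (∀ x ∈ M, (N + K) x ∈ M) ∧ M ≠ ⊥ ∧ M ≠ ⊤ := by
  refine SeminormalPlusTraceClass.result hH N K (Or.inl fun x => ?_) u v huv hK
  have h1 := Hy.re_inner_comm N x
  have h2 : star N * N - N * star N = 0 := sub_eq_zero.2 hN
  rw [h2] at h1
  simp only [ContinuousLinearMap.zero_apply, inner_zero_right, Complex.zero_re] at h1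
  exact (pow_le_pow_iff_left₀ (norm_nonneg _) (norm_nonneg _) two_ne_zero).1
    (sub_nonneg.1 h1.le)

end Pool.Agent.Lib.MP_45cb44_an.SP
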