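import Pool.Agent.Lib.MP_45cb44_an.HyMain
import Pool.Agent.Lib.MP_45cb44_an.TC.Fin

/-! Trace class perturbations of hyponormal and cohyponormal operators. -/

namespace Pool.Agent.Lib.MP_45cb44_an.SP

open Set Filter Topology
open scoped InnerProductSpace ComplexConjugate
open Pool.Agent.Lib.MP_45cb44_an.Hy

variable {H : Type*} [NormedAddCommGroup H] [InnerProductSpace ℂ H] [CompleteSpace H]
  {S A B X Y : H →L[ℂ] H}

/-- Hilbert-Schmidt operators, with respect to a fixed basis. -/
def HS (b : HilbertBasis ℕ ℂ H) (X : H →L[ℂ] H) : Prop := Summable fun j => ‖X (b j)‖ ^ 2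

/-- The square of the Hilbert-Schmidt norm. -/
noncomputable def NN (b : HilbertBasis ℕ ℂ H) (X : H →L[ℂ] H) : ℝ := ∑' j, ‖X (b j)‖ ^ 2

variable {b : HilbertBasis ℕ ℂ H}

lemma HS.adj (h : HS b X) : HS b (star X) := bs_hs b b h

lemma HS.left (h : HS b X) (P : H →L[ℂ] H) : HS b (P * X) :=
  (Summable.mul_left (‖P‖ ^ 2) h).of_nonneg_of_le (fun _ => by positivity) fun j => by
    rw [← mul_pow]
    exact pow_le_pow_left₀ (norm_nonneg _) (P.le_opNorm _) 2

lemma HS.right (h : HS b X) (P : H →L[ℂ] H) : HS b (X * P) := by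
  have := (h.adj.left (star P)).adj
  rwa [star_mul, star_star, star_star] at this

omit [CompleteSpace H] in
lemma HS.add (h : HS b X) (h' : HS b Y) : HS b (X + Y) :=
  ((Summable.add h h').mul_left 2).of_nonneg_of_le (fun _ => by positivity) fun j => by
    have h1 : ‖(X + Y) (b j)‖ ≤ ‖X (b j)‖ + ‖Y (b j)‖ := norm_add_le _ _
    have h2 := pow_le_pow_left₀ (norm_nonneg _) h1 2
    nlinarith [sq_nonneg (‖X (b j)‖ - ‖Y (b j)‖)]

lemma HS.nn_le (h : HS b X) : NN b (star X) ≤ NN b X := by
  refine Real.tsum_le_of_sum_le (fun _ => by positivity) fun u => ?_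
  refine hasSum_le (fun i => ?_) (hasSum_sum fun j _ => bs_parseval b (star X (b j))) h.hasSum
  refine le_trans (le_of_eq (Finset.sum_congr rfl fun j _ => ?_))
    (b.orthonormal.sum_inner_products_le (s := u) (X (b i)))
  rw [bs_adj_right, norm_inner_symm]

lemma HS.nn (h : HS b X) : NN b (star X) = NN b X := by
  refine le_antisymm h.nn_le ?_
  have := h.adj.nn_le
  rwa [star_star] at this

omit [CompleteSpace H] in
lemma sq_add (x y : H) : ‖x + y‖ ^ 2 = ‖x‖ ^ 2 + 2 * (⟪x, y⟫_ℂ).re + ‖y‖ ^ 2 :=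
  norm_add_sq (𝕜 := ℂ) x y

omit [CompleteSpace H] in
lemma HS.pair (h : HS b X) (h' : HS b Y) :
    HasSum (fun j => 2 * (⟪X (b j), Y (b j)⟫_ℂ).re) (NN b (X + Y) - NN b X - NN b Y) := by
  have := ((h.add h').hasSum.sub h.hasSum).sub h'.hasSum
  have e : (fun j => 2 * (⟪X (b j), Y (b j)⟫_ℂ).re) =
      fun j => ‖(X + Y) (b j)‖ ^ 2 - ‖X (b j)‖ ^ 2 - ‖Y (b j)‖ ^ 2 := by
    funext j
    rw [ContinuousLinearMap.add_apply, sq_add]
    ring
  rw [e]
  exact this

lemma HS.pair_adj (h : HS b X) (h' : HS b Y) :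
    ∑' j, 2 * (⟪star X (b j), star Y (b j)⟫_ℂ).re = ∑' j, 2 * (⟪X (b j), Y (b j)⟫_ℂ).re := by
  rw [(h.pair h').tsum_eq, (h.adj.pair h'.adj).tsum_eq, ← star_add, (h.add h').nn, h.nn, h'.nn]

/-- Cyclicity of the trace. -/
lemma cyc (hA : HS b A) (hB : HS b B) (S : H →L[ℂ] H) :
    ∑' j, 2 * (⟪(A * S) (b j), B (b j)⟫_ℂ).re =
      ∑' j, 2 * (⟪(B * star S) (b j), A (b j)⟫_ℂ).re := by
  rw [← (hA.right S).pair_adj hB, ← (hB.right (star S)).pair_adj hA]
  refine tsum_congr fun j => ?_
  rw [star_mul, star_mul, star_star, ContinuousLinearMap.mul_apply, ContinuousLinearMap.mul_apply,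
    bs_adj_left, ← inner_conj_symm, Complex.conj_re]

lemma form1 (S A B : H →L[ℂ] H) (x : H) : ‖(S + star A * B) x‖ ^ 2 =
    ‖S x‖ ^ 2 + 2 * (⟪(A * S) x, B x⟫_ℂ).re + ‖(star A * B) x‖ ^ 2 := by
  rw [ContinuousLinearMap.add_apply, sq_add, ContinuousLinearMap.mul_apply, bs_adj_right,
    ContinuousLinearMap.mul_apply]

/-- The self-commutator changes by an operator of trace zero. -/
lemma trace_zero (hA : HS b A) (hB : HS b B) (S : H →L[ℂ] H) :
    HasSum (fun j => (‖(S + star A * B) (b j)‖ ^ 2 - ‖star (S + star A * B) (b j)‖ ^ 2) -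
      (‖S (b j)‖ ^ 2 - ‖star S (b j)‖ ^ 2)) 0 := by
  have hK : HS b (star A * B) := hB.left _
  have h1 := ((hA.right S).pair hB).summable.hasSum
  have h2 := ((hB.right (star S)).pair hA).summable.hasSum
  have h3 : HasSum _ (NN b (star A * B)) := hK.hasSum
  have h4 : HasSum _ (NN b (star (star A * B))) := hK.adj.hasSum
  have h5 := (h1.add h3).sub (h2.add h4)
  rw [cyc hA hB S, hK.nn, sub_self] at h5
  have e : star (S + star A * B) = star S + star B * A := by rw [star_add, star_mul, star_star]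
  have e2 : star (star A * B) = star B * A := by rw [star_mul, star_star]
  refine (congrArg (fun f => HasSum f 0) (funext fun j => ?_)).mp h5
  rw [e, e2, form1, form1]
  ring

lemma pos_sq (X : H →L[ℂ] H) : (star X * X).IsPositive := by
  have := pos_conj (ContinuousLinearMap.isPositive_one (𝕜 := ℂ) (E := H)) X
  rwa [mul_one] at this

lemma HS.summ (h : HS b X) : Summable fun j => ⟪b j, (star X * X) (b j)⟫_ℂ := by
  refine (Complex.summable_ofReal.2 h).congr fun j => ?_
  rw [ContinuousLinearMap.mul_apply, bs_adj_right, inner_self_eq_norm_sq_to_K]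
  simp

lemma pos_comm (h : ∀ x, ‖star S x‖ ≤ ‖S x‖) : (star S * S - S * star S).IsPositive := by
  have sa : IsSelfAdjoint (star S * S - S * star S) := by simp [IsSelfAdjoint]
  refine ContinuousLinearMap.isPositive_def'.2 ⟨sa, fun x => ?_⟩
  rw [ContinuousLinearMap.reApplyInnerSelf_apply, inner_re_symm]
  have := re_inner_comm S x
  simp only [RCLike.re_to_complex, this]
  nlinarith [h x, norm_nonneg (star S x)]

lemma normal_of_trace (h : ∀ x, ‖star S x‖ ≤ ‖S x‖)
    (h0 : HasSum (fun j => ‖S (b j)‖ ^ 2 - ‖star S (b j)‖ ^ 2) 0) :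
    star S * S = S * star S := by
  obtain ⟨Φ, hΦ, e⟩ := exists_sqrt (pos_comm h)
  simp only [← re_inner_comm, ← e, re_inner_sq hΦ] at h0
  have h2 : ∀ i, Φ (b i) = 0 := fun i => by
    have := congrFun ((hasSum_zero_iff_of_nonneg fun i => by positivity).1 h0) i
    simpa using this
  have h3 : Φ = 0 := by
    ext x
    have := (b.hasSum_repr x).mapL Φ
    simp only [map_smul, h2, smul_zero] at this
    exact this.unique hasSum_zero
  rw [h3, zero_mul] at e
  exact sub_eq_zero.1 e.symm

lemma not_tr_hypo (hA : HS b A) (hB : HS b B) (h : ∀ x, ‖star S x‖ ≤ ‖S x‖)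
    (hN : star S * S ≠ S * star S) : ¬Tr (S + star A * B) := by
  have hK : HS b (star B * A) := hA.left _
  refine not_tr_one_sided (K := star (A * S) * (A * S) + star B * B +
      star (B * star S) * (B * star S) + star A * A + star (star B * A) * (star B * A))
    (S := S + star A * B) b
    (((((pos_sq _).add (pos_sq _)).add (pos_sq _)).add (pos_sq _)).add (pos_sq _)) ?_
    (Or.inl ?_) (Or.inl rfl) fun h0 => hN (normal_of_trace (b := b) h ?_)
  · simpa only [ContinuousLinearMap.add_apply, inner_add_right] using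
      (((((hA.right S).summ.add hB.summ).add (hB.right (star S)).summ).add hA.summ).add hK.summ)
  · have e : star (A * S) * (A * S) + star B * B + star (B * star S) * (B * star S) + star A * A +
        star (star B * A) * (star B * A) + (star (S + star A * B) * (S + star A * B) -
          (S + star A * B) * star (S + star A * B)) =
        star (A * S + B) * (A * S + B) + star (B * star S - A) * (B * star S - A) +
          star (star A * B) * (star A * B) + (star S * S - S * star S) := by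
      simp only [star_add, star_sub, star_mul, star_star]
      noncomm_ring
    rw [e]
    exact (((pos_sq _).add (pos_sq _)).add (pos_sq _)).add (pos_comm h)
  · have h1 := Complex.hasSum_re h0
    simp only [re_inner_comm, Complex.zero_re] at h1
    have h2 := h1.sub (trace_zero hA hB S)
    simpa only [sub_sub_cancel, sub_zero] using h2

/-- A trace class operator is a product of two Hilbert-Schmidt operators. -/
lemma factor (b : HilbertBasis ℕ ℂ H) {K : H →L[ℂ] H} (u v : ℕ → H)
    (hs : Summable fun n => ‖u n‖ * ‖v n‖) (hK : ∀ x, HasSum (fun n => ⟪v n, x⟫_ℂ • u n) (K x)) :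
    ∃ A B : H →L[ℂ] H, HS b A ∧ HS b B ∧ K = star A * B := by
  have key : ∀ x y : ℕ → H, (Summable fun n => ‖x n‖ * ‖y n‖) →
      Memℓp (fun n => ((√‖y n‖ / √‖x n‖ : ℝ) : ℂ) • x n) 2 := fun x y h => by
    refine memℓp_gen (h.congr fun n => ?_)
    rw [norm_smul, Complex.norm_real, Real.norm_of_nonneg (by positivity)]
    by_cases h0 : ‖x n‖ = 0
    · simp [h0]
    · rw [ENNReal.toReal_ofNat, Real.rpow_two, mul_pow, div_pow, Real.sq_sqrt (norm_nonneg _),
        Real.sq_sqrt (norm_nonneg _)]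
      field_simp
  let u' : TC.SQ H := ⟨_, key u v hs⟩
  let v' : TC.SQ H := ⟨_, key v u (by simpa only [mul_comm] using hs)⟩
  let F : TC.SQ H → H →L[ℂ] H := fun w =>
    (b.repr.symm.toContinuousLinearEquiv : TC.SQ ℂ →L[ℂ] H) ∘L TC.Vs w
  have eF : ∀ w x, F w x = b.repr.symm (TC.Vs w x) := fun w x => rfl
  have hF : ∀ w, HS b (F w) := fun w => by
    have h1 : ∀ j, star (F w) (b j) = w j := fun j => by
      refine ext_inner_right ℂ fun y => ?_
      rw [bs_adj_left, ← b.repr_apply_apply, eF, LinearIsometryEquiv.apply_symm_apply, TC.Vs_apply]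
    have h2 : HS b (star (F w)) := by
      unfold HS
      simp only [h1]
      exact (TC.vs_sq w).summable
    have := h2.adj
    rwa [star_star] at this
  refine ⟨F u', F v', hF _, hF _, ?_⟩
  ext x
  refine ext_inner_left ℂ fun y => ?_
  rw [ContinuousLinearMap.mul_apply, bs_adj_right, eF, eF, LinearIsometryEquiv.inner_map_map]
  refine ((hK x).mapL (innerSL ℂ y)).unique ?_
  refine (congrArg (fun f => HasSum f _) (funext fun n => ?_)).mp
    (lp.hasSum_inner (𝕜 := ℂ) (TC.Vs u' y) (TC.Vs v' x))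
  simp only [TC.Vs_apply, u', v', inner_smul_left, Complex.conj_ofReal, innerSL_apply_apply,
    inner_smul_right, RCLike.inner_apply, map_mul, inner_conj_symm]
  by_cases h1 : u n = 0
  · simp [h1]
  by_cases h2 : v n = 0
  · simp [h2]
  have a1 : (√‖u n‖ : ℂ) ≠ 0 := by simpa using h1
  have a2 : (√‖v n‖ : ℂ) ≠ 0 := by simpa using h2
  push_cast
  field_simp

theorem not_tr (hd : ¬FiniteDimensional ℂ H) {K : H →L[ℂ] H}
    (h : (∀ x, ‖star S x‖ ≤ ‖S x‖) ∨ ∀ x, ‖S x‖ ≤ ‖star S x‖) (u v : ℕ → H)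
    (hs : Summable fun n => ‖u n‖ * ‖v n‖) (hK : ∀ x, HasSum (fun n => ⟪v n, x⟫_ℂ • u n) (K x)) :
    ¬Tr (S + K) := by
  intro ht
  by_cases hN : star S * S = S * star S
  · by_cases hc : ∀ a : ℂ, S + K ≠ a • 1
    · obtain ⟨M, h1, h2, h3, h4⟩ := TC.exists_hyperinvariant hN u v hs hK hc
      obtain ⟨x, hx, h0⟩ := (Submodule.ne_bot_iff M).1 h2
      exact h3 (ht.eq_top h1 (h4 _ (Commute.refl _)) hx h0)
    · push Not at hc
      obtain ⟨a, ha⟩ := hc
      refine not_tr_normal ?_ hd ht
      rw [ha, star_smul, star_one]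
      simp only [smul_mul_assoc, mul_smul_comm, one_mul, smul_smul, mul_comm]
  obtain ⟨b, -⟩ := ht.exists_basis hd
  obtain ⟨A, B, hA, hB, rfl⟩ := factor b u v hs hK
  rcases h with h | h
  · exact not_tr_hypo hA hB h hN ht
  · have h1 := ht.adj
    rw [star_add, star_mul, star_star] at h1
    refine not_tr_hypo (S := star S) hB hA (by rwa [star_star]) ?_ h1
    rw [star_star]
    exact fun e => hN e.symm

end Pool.Agent.Lib.MP_45cb44_an.SP
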